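import Pool.Agent.Helper66_ML.Stmts2
import Pool.Agent.Helper79_WRA.Basic

/-!
# ML stage 2, row LDA: elementary properties of the local divisibility
-/

open scoped BigOperators

set_option linter.all false

noncomputable section

namespace Pool.Agent.PP.ML.H90

open Pool.Agent.Helper51_AWC Pool.Agent.Helper79_WRA Pool.Agent.PP Pool.Agent.Helper98_CC

section
variable {ℓ : ℕ} [Fact ℓ.Prime] {M : Ideal (integralClosure ℤ ℂ)} [M.IsMaximal]

theorem int_nat (t : ℕ) : IsIntegral ℤ (t : ℂ) := by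
  have := isIntegral_algebraMap (R := ℤ) (A := ℂ) (x := (t : ℤ))
  simpa using this

theorem int_int (t : ℤ) : IsIntegral ℤ (t : ℂ) := by
  have := isIntegral_algebraMap (R := ℤ) (A := ℂ) (x := t)
  simpa using this

theorem red_nat (t : ℕ) : red M (t : ℂ) = (t : FF M) := by
  rw [red_of (M := M) (int_nat t)]
  have : (⟨(t : ℂ), int_nat t⟩ : integralClosure ℤ ℂ) = (t : integralClosure ℤ ℂ) := by
    apply Subtype.ext
    simp
  rw [this, map_natCast]

theorem red_int (t : ℤ) : red M (t : ℂ) = (t : FF M) := by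
  rw [red_of (M := M) (int_int t)]
  have : (⟨(t : ℂ), int_int t⟩ : integralClosure ℤ ℂ) = (t : integralClosure ℤ ℂ) := by
    apply Subtype.ext
    simp
  rw [this, map_intCast]

theorem ell_zero (hl : (ℓ : integralClosure ℤ ℂ) ∈ M) : ((ℓ : ℕ) : FF M) = 0 := by
  have h := Ideal.Quotient.eq_zero_iff_mem.mpr hl
  rwa [map_natCast] at h

theorem int_ne (hl : (ℓ : integralClosure ℤ ℂ) ∈ M) (t : ℤ) (ht : ¬ (ℓ : ℤ) ∣ t) :
    ((t : ℤ) : FF M) ≠ 0 := by
  letI := Ideal.Quotient.field M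
  intro h0
  have hc : IsCoprime (ℓ : ℤ) t := (Nat.prime_iff_prime_int.mp (Fact.out : ℓ.Prime)).coprime_iff_not_dvd.mpr ht
  obtain ⟨a, b, hab⟩ := hc
  have h1 := congrArg (fun n : ℤ => (n : FF M)) hab
  simp only [Int.cast_add, Int.cast_mul, h0, mul_zero, add_zero, Int.cast_natCast, ell_zero hl,
    Int.cast_one] at h1
  exact zero_ne_one h1

theorem ld_add {m : ℕ} {z w : ℂ} (hz : LD M m z) (hw : LD M m w) : LD M m (z + w) := by
  letI := Ideal.Quotient.field M
  obtain ⟨u, v, hu, hur, hv, h⟩ := hz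
  obtain ⟨u', v', hu', hur', hv', h'⟩ := hw
  refine ⟨u * u', u' * v + u * v', hu.mul hu', ?_, (hu'.mul hv).add (hu.mul hv'), ?_⟩
  · rw [red_mul (M := M) hu hu']
    exact mul_ne_zero hur hur'
  · linear_combination u' * h + u * h'

theorem ld_mul {m n : ℕ} {z w : ℂ} (hz : LD M m z) (hw : LD M n w) : LD M (m * n) (z * w) := by
  letI := Ideal.Quotient.field M
  obtain ⟨u, v, hu, hur, hv, h⟩ := hz
  obtain ⟨u', v', hu', hur', hv', h'⟩ := hw
  refine ⟨u * u', v * v', hu.mul hu', ?_, hv.mul hv', ?_⟩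
  · rw [red_mul (M := M) hu hu']
    exact mul_ne_zero hur hur'
  · push_cast
    linear_combination u' * w * h + (m : ℂ) * v * h'

theorem ld_int_mul {m : ℕ} {z w : ℂ} (hz : LD M m z) (hw : IsIntegral ℤ w) : LD M m (w * z) := by
  obtain ⟨u, v, hu, hur, hv, h⟩ := hz
  refine ⟨u, w * v, hu, hur, hw.mul hv, ?_⟩
  linear_combination w * h

theorem ld_cancel (hl : (ℓ : integralClosure ℤ ℂ) ∈ M) {m : ℕ} {z : ℂ} {t : ℕ} (ht : ¬ ℓ ∣ t)
    (hz : LD M m (t * z)) : LD M m z := by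
  letI := Ideal.Quotient.field M
  obtain ⟨u, v, hu, hur, hv, h⟩ := hz
  refine ⟨u * t, v, hu.mul (int_nat t), ?_, hv, by rw [← h]; ring⟩
  rw [red_mul (M := M) hu (int_nat t), red_nat]
  refine mul_ne_zero hur ?_
  have := int_ne hl (t : ℤ) (by exact_mod_cast ht)
  simpa using this

theorem ld_int (hl : (ℓ : integralClosure ℤ ℂ) ∈ M) (n : ℕ) : ∀ (z : ℤ),
    LD M (ℓ ^ n) (z : ℂ) → ((ℓ ^ n : ℕ) : ℤ) ∣ z := by
  letI := Ideal.Quotient.field M
  have hp : (ℓ : ℕ).Prime := Fact.out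
  induction n with
  | zero => intro z _; simp
  | succ n ih =>
    intro z hz
    obtain ⟨u, v, hu, hur, hv, h⟩ := hz
    have hdvd : (ℓ : ℤ) ∣ z := by
      by_contra hnd
      have h1 := congrArg (red M) h
      rw [red_mul (M := M) hu (int_int z), red_int,
        red_mul (M := M) (int_nat _) hv, red_nat] at h1
      push_cast at h1
      rw [ell_zero hl, zero_pow (Nat.succ_ne_zero n), zero_mul] at h1
      exact mul_ne_zero hur (int_ne hl z hnd) h1
    obtain ⟨z', rfl⟩ := hdvd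
    have hl0 : (ℓ : ℂ) ≠ 0 := by exact_mod_cast hp.ne_zero
    have h2 : LD M (ℓ ^ n) (z' : ℂ) := by
      refine ⟨u, v, hu, hur, hv, ?_⟩
      apply mul_left_cancel₀ hl0
      push_cast at h ⊢
      rw [pow_succ] at h
      linear_combination h
    have h3 := ih z' h2
    have h4 : ((ℓ ^ (n + 1) : ℕ) : ℤ) = (ℓ : ℤ) * ((ℓ ^ n : ℕ) : ℤ) := by push_cast; ring
    rw [h4]
    exact mul_dvd_mul_left _ h3

end

/-- LDA. -/
theorem lda : LdaStmt := by
  intro ℓ _ M _ hl
  exact ⟨fun m z w hz hw => ld_add hz hw, fun m n z w hz hw => ld_mul hz hw,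
    fun m z w hz hw => ld_int_mul hz hw, fun m z t ht hz => ld_cancel hl ht hz,
    fun n z hz => ld_int hl n z hz⟩

end Pool.Agent.PP.ML.H90
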