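import Pool.Agent.Helper66_ML.Stmts2
import Pool.Agent.Helper17_ML.MOB

/-!
# ML stage 2, row MOBK: the chains fixed by a group `K` and a nontrivial subgroup of `R`

The proof is the one of `Pool.Agent.Helper17_ML.MOB` with the group `K` in place of `x`, `y`.
-/

open scoped BigOperators

noncomputable section

namespace Pool.Agent.PP.ML.H90

open Pool.Agent.Helper51_AWC Pool.Agent.Helper79_WRA Pool.Agent.PP Pool.Agent.Helper98_CC
open Pool.Agent.PP.ML.H17 (fsum_eq moeb)

variable {G : Type} [Group G]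

/-- normalised by `K` -/
def NmK (K U : Subgroup G) : Prop := ∀ x ∈ K, ∀ u ∈ U, x * u * x⁻¹ ∈ U

/-- the join of all subgroups of `R` normalised by `K` -/
def VK (R K : Subgroup G) : Subgroup G := sSup {U | U ≤ R ∧ NmK K U}

theorem VK_le (R K : Subgroup G) : VK R K ≤ R := sSup_le fun _ h => h.1

theorem le_VK {R K U : Subgroup G} (h1 : U ≤ R) (h2 : NmK K U) : U ≤ VK R K := le_sSup ⟨h1, h2⟩

theorem NmK_VK (R K : Subgroup G) : NmK K (VK R K) := by
  intro z hz
  have h : VK R K ≤ (VK R K).comap (MulAut.conj z).toMonoidHom := by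
    apply sSup_le
    intro U hU u hu
    rw [Subgroup.mem_comap]
    have h1 := hU.2 z hz u hu
    exact le_VK hU.1 hU.2 (by simpa using h1)
  intro u hu
  have := h hu
  rw [Subgroup.mem_comap] at this
  simpa using this

theorem NmK_inf {K U S : Subgroup G} (h : NmK K U) (hK : K ≤ S) : NmK K (U ⊓ S) :=
  fun x hx u hu => ⟨h x hx u hu.1, S.mul_mem (S.mul_mem (hK hx) hu.2) (S.inv_mem (hK hx))⟩

/-- MOBK from COX. -/
theorem mobK (cox : CoxStmt) : MobKStmt := by
  classical
  intro ℓ _ G _ _ R hR K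
  have := Fintype.ofFinite (Subgroup G)
  rw [fsum_eq]
  let F : Finset (Finset (Subgroup G)) :=
    Finset.univ.filter (fun d => d ∈ pChains ℓ G ∧ K ≤ stab d)
  let g : Finset (Subgroup G) → Subgroup G := fun d => VK R K ⊓ stab d
  have hm := moeb F g (fun d => (-1 : ℤ) ^ d.card) ⊥ (fun W => bot_le) (by
    intro W hW
    by_cases hn : W ≤ VK R K ∧ NmK K W
    · left
      have hc := cox ℓ G (K ⊔ W) W hW
        (hR.to_le (hn.1.trans (VK_le R K))) le_sup_right
        (sup_le (fun z hz => Subgroup.mem_normalizer_fintype fun n hn' => hn.2 z hz n hn')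
          Subgroup.le_normalizer)
      rw [fsum_eq] at hc
      rw [← hc]
      apply Finset.sum_congr _ (fun _ _ => rfl)
      ext d
      simp only [Finset.mem_filter, Finset.mem_univ, true_and, F, g, le_inf_iff, sup_le_iff]
      constructor
      · rintro ⟨⟨h1, h2⟩, h4, h5⟩
        exact ⟨h1, h2, h5⟩
      · rintro ⟨h1, h2, h3⟩
        exact ⟨⟨h1, h2⟩, hn.1, h3⟩
    · right
      intro d hd he
      apply hn
      have hd' := (Finset.mem_filter.1 hd).2
      rw [← he]
      exact ⟨inf_le_left, NmK_inf (NmK_VK R K) hd'.2⟩)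
  rw [← hm]
  apply Finset.sum_congr _ (fun _ _ => rfl)
  ext d
  simp only [Finset.mem_filter, Finset.mem_univ, true_and, F, g]
  constructor
  · rintro ⟨h1, h2, U, hU, h4, h5, h6⟩
    refine ⟨⟨h1, h2⟩, fun h => hU ?_⟩
    rw [eq_bot_iff, ← h]
    exact le_inf (le_VK h4 h6) h5
  · rintro ⟨⟨h1, h2⟩, h⟩
    have hN := NmK_inf (NmK_VK R K) h2
    exact ⟨h1, h2, VK R K ⊓ stab d, h, inf_le_left.trans (VK_le R K), inf_le_right, hN⟩

end Pool.Agent.PP.ML.H90
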