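import Pool.Agent.Helper90_ML.Lda

/-!
# ML stage 2, row NUM: multilinear expansion
-/

open scoped BigOperators

set_option linter.all false

noncomputable section

namespace Pool.Agent.PP.ML.H90

open Pool.Agent.Helper51_AWC Pool.Agent.Helper79_WRA Pool.Agent.PP Pool.Agent.Helper98_CC

section
variable {G : Type} [Group G] [Finite G]

theorem altF_eq (ℓ : ℕ) [Fintype (Quotient (chainSetoid ℓ G))] (F : (G → ℂ) → ℂ) :
    altF ℓ F = ∑ q : Quotient (chainSetoid ℓ G), (-1) ^ q.out.length *
      ∑ a ∈ (IrrS_finite (stab q.out.mem)).toFinset, F a := by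
  unfold altF
  rw [finsum_eq_sum_of_fintype]
  refine Finset.sum_congr rfl (fun q _ => ?_)
  congr 1
  rw [← finsum_mem_coe_finset]
  simp

theorem altF_lin (ℓ : ℕ) {ι : Type} (s : Finset ι) (w : ι → ℂ) (F : ι → (G → ℂ) → ℂ) :
    altF ℓ (fun a => ∑ c ∈ s, w c * F c a) = ∑ c ∈ s, w c * altF ℓ (F c) := by
  classical
  have := Fintype.ofFinite (Quotient (chainSetoid ℓ G))
  simp only [altF_eq]
  simp only [Finset.mul_sum]
  rw [Finset.sum_comm]
  have h1 : ∀ q : Quotient (chainSetoid ℓ G),
      ∑ a ∈ (IrrS_finite (stab q.out.mem)).toFinset, ∑ c ∈ s, (-1 : ℂ) ^ q.out.length * (w c * F c a) =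
      ∑ c ∈ s, ∑ a ∈ (IrrS_finite (stab q.out.mem)).toFinset, w c * ((-1 : ℂ) ^ q.out.length * F c a) := by
    intro q
    rw [Finset.sum_comm]
    refine Finset.sum_congr rfl (fun c _ => Finset.sum_congr rfl (fun a _ => ?_))
    ring
  rw [Finset.sum_comm]
  simp only [h1]
  rw [Finset.sum_comm]

open Classical in
theorem omF_eq [Fintype (ConjClasses G)] (f a : G → ℂ) (hf : ∀ x y, f (y * x * y⁻¹) = f x) :
    omF f a = ∑ c : ConjClasses G, f c.out * omega (MonoidHom.id G) a c.out := by
  have := Fintype.ofFinite G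
  unfold omF
  rw [finsum_eq_sum_of_fintype]
  simp only [omega_eq]
  simp only [← mul_div_assoc]
  rw [← Finset.sum_div]
  congr 1
  simp only [Finset.mul_sum]
  rw [Finset.sum_comm]
  refine Finset.sum_congr rfl (fun g _ => ?_)
  have hout : ∀ c : ConjClasses G, ConjClasses.mk c.out = c := fun c => Quotient.out_eq c
  rw [Finset.sum_eq_single (ConjClasses.mk g)]
  · have hc : IsConj (ConjClasses.mk g).out g := by
      rw [← ConjClasses.mk_eq_mk_iff_isConj]
      exact hout _
    rw [if_pos (show IsConj (ConjClasses.mk g).out ((MonoidHom.id G) g) from hc)]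
    obtain ⟨y, hy⟩ := isConj_iff.1 hc
    rw [← hf (ConjClasses.mk g).out y, hy]
  · intro c _ hne
    rw [if_neg, mul_zero]
    intro hc
    have hc' : IsConj c.out g := hc
    rw [← ConjClasses.mk_eq_mk_iff_isConj, hout] at hc'
    exact hne hc'
  · intro h; exact absurd (Finset.mem_univ _) h

end

section
variable {ℓ : ℕ} [Fact ℓ.Prime] {M : Ideal (integralClosure ℤ ℂ)} [M.IsMaximal]

theorem red_one_ne : red M (1 : ℂ) ≠ 0 := by
  letI := Ideal.Quotient.field M
  rw [red_one]
  exact one_ne_zero

theorem ld_zero (m : ℕ) : LD M m 0 :=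
  ⟨1, 0, isIntegral_one, red_one_ne, isIntegral_zero, by ring⟩

theorem ld_mulint (m : ℕ) (v : ℂ) (hv : IsIntegral ℤ v) : LD M m (m * v) :=
  ⟨1, v, isIntegral_one, red_one_ne, hv, by ring⟩

theorem ld_sum {ι : Type} (m : ℕ) (s : Finset ι) (f : ι → ℂ) (h : ∀ c ∈ s, LD M m (f c)) :
    LD M m (∑ c ∈ s, f c) := by
  classical
  induction s using Finset.induction_on with
  | empty => simpa using ld_zero m
  | insert a s ha ih =>
    rw [Finset.sum_insert ha]
    exact ld_add (h a (Finset.mem_insert_self _ _)) (ih fun c hc => h c (Finset.mem_insert_of_mem hc))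

theorem num_aux (hLLS : LlsStmt) (hl : (ℓ : integralClosure ℤ ℂ) ∈ M) {G : Type} [Group G] [Finite G]
    (hG : opCore ℓ G = ⊥) (n : ℕ) (g : G) : ∀ (fs : List (G → ℂ)) (bs : List G),
    (∀ h ∈ fs, (∀ x y, h (y * x * y⁻¹) = h x) ∧ ∀ x, IsIntegral ℤ (h x)) →
    DV ℓ n (bs.length + fs.length) g →
    LD M n (altF ℓ fun a => omega (MonoidHom.id G) a g *
      (bs.map fun b => omega (MonoidHom.id G) a b).prod * (fs.map fun h => omF h a).prod) := by
  classical
  intro fs
  induction fs with
  | nil =>
    intro bs _ hDV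
    obtain ⟨r, t, hrt, ht, k, hk⟩ := hDV bs (by simp)
    have h1 := hLLS ℓ G hG g bs
    rw [hk, ← hrt] at h1
    have hcz : cz g ≠ 0 := Nat.card_pos.ne'
    have hr : (r : ℂ) ≠ 0 := by
      intro h0
      apply hcz
      rw [← hrt]
      have : r = 0 := by exact_mod_cast h0
      rw [this, zero_mul]
    simp only [List.map_nil, List.prod_nil, mul_one]
    apply ld_cancel hl ht
    have h2 : (t : ℂ) * altF ℓ (fun a => omega (MonoidHom.id G) a g *
        (bs.map fun b => omega (MonoidHom.id G) a b).prod) = (n : ℂ) * (k : ℂ) := by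
      apply mul_left_cancel₀ hr
      push_cast at h1
      linear_combination -h1
    rw [h2]
    exact ld_mulint n _ (int_int k)
  | cons h fs ih =>
    intro bs hfs hDV
    have := Fintype.ofFinite (ConjClasses G)
    obtain ⟨hh1, hh2⟩ := hfs h List.mem_cons_self
    have hfs' : ∀ h ∈ fs, (∀ x y, h (y * x * y⁻¹) = h x) ∧ ∀ x, IsIntegral ℤ (h x) :=
      fun h' hh' => hfs h' (List.mem_cons_of_mem _ hh')
    have e : (fun a => omega (MonoidHom.id G) a g *
        (bs.map fun b => omega (MonoidHom.id G) a b).prod * ((h :: fs).map fun h => omF h a).prod) =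
        (fun a => ∑ c : ConjClasses G, h c.out * (omega (MonoidHom.id G) a g *
        ((c.out :: bs).map fun b => omega (MonoidHom.id G) a b).prod *
          (fs.map fun h => omF h a).prod)) := by
      funext a
      rw [List.map_cons, List.prod_cons, omF_eq h a hh1, ← mul_assoc, Finset.mul_sum, Finset.sum_mul]
      refine Finset.sum_congr rfl (fun c _ => ?_)
      rw [List.map_cons, List.prod_cons]
      ring
    rw [e, altF_lin ℓ Finset.univ (fun c : ConjClasses G => h c.out)]
    refine ld_sum n _ _ (fun c _ => ?_)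
    refine ld_int_mul ?_ (hh2 _)
    exact ih (c.out :: bs) hfs' (by
      rw [List.length_cons] at hDV ⊢
      rw [show bs.length + 1 + fs.length = bs.length + (fs.length + 1) from by ring]
      exact hDV)

end

/-- NUM. -/
theorem num (hLLS : LlsStmt) : NumStmt := by
  classical
  intro ℓ _ M _ hl G _ _ hG n f fs hf1 hf2 hfs hDV
  have := Fintype.ofFinite (ConjClasses G)
  have e : (fun a => omF f a * (fs.map fun h => omF h a).prod) =
      (fun a => ∑ c : ConjClasses G, f c.out * (omega (MonoidHom.id G) a c.out *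
      (([] : List G).map fun b => omega (MonoidHom.id G) a b).prod *
        (fs.map fun h => omF h a).prod)) := by
    funext a
    rw [omF_eq f a hf1, Finset.sum_mul]
    refine Finset.sum_congr rfl (fun c _ => ?_)
    rw [List.map_nil, List.prod_nil]
    ring
  rw [e, altF_lin ℓ Finset.univ (fun c : ConjClasses G => f c.out)]
  refine ld_sum n _ _ (fun c _ => ?_)
  by_cases h0 : f c.out = 0
  · rw [h0, zero_mul]; exact ld_zero n
  · refine ld_int_mul ?_ (hf2 _)
    exact num_aux hLLS hl hG n c.out fs [] hfs (by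
      rw [List.length_nil, zero_add]
      exact hDV _ h0)

end Pool.Agent.PP.ML.H90
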